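import Pool.Agent.Lib_MP_94a925_gt.Interval

/-!
# `C_p([0,1])` does not embed into any pseudoradial Tychonoff space

This answers Arhangel'skii's question in the negative, in ZFC.

Idea of the proof.  Suppose that `Z` is a pseudoradial Tychonoff space containing `C_p(I)`.  For
every `x ∈ I` there is a continuous function `F_x` on `Z` which is `1` on all `f` with `f x ≥ 1` and
which is smaller than `1/2` at all `f` which vanish on some finite set `G_x`.  If `A` is a countable
set of bump functions, with finitely many on every level, which accumulates at `0`, then `A` contains
a sequence which converges in `Z`; since all functions `F_x` converge along this sequence, for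
residually many `x` the finite set `G_x` meets almost all the supports of the functions of the
sequence.  One chooses inductively such families `A_0, A_1, ...` of bump functions around finite
`1/n`-dense sets with quickly decreasing radii, in such a way that for almost all tuples `h`
(with respect to Lebesgue measure on `I^s`) there are no `l` further points such that the resulting
tuple meets almost all the supports of the first `l + 1` sequences.  For `s = 0` and `l = |G_x|`
this is a contradiction.
-/

set_option autoImplicit false

namespace Pool.Agent.Results.MP_94a925_gt.NoPseudoradialSuperspace

open Topology

universe u

open Pool.Agent.MP_94a925_gt in
/-- No pseudoradial Tychonoff space contains a subspace homeomorphic to `C_p([0,1])`. -/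
theorem result (Z : Type u) [TopologicalSpace Z] [T35Space Z] (hZ : IsPseudoradial Z) :
    ¬ ∃ e : Cp unitInterval → Z, IsEmbedding e :=
  no_embedding_unitInterval Z hZ

end Pool.Agent.Results.MP_94a925_gt.NoPseudoradialSuperspace
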